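import Mathlib

/-!
# The volume conjecture for intertwiners fails for all diffeomorphisms of the once-punctured torus
# at the quaternion character with `θ = 2 π i`

Let `S` be the once-punctured torus.  The character variety of its fundamental group (free on `a`,
`b`) is `ℂ³`, with the coordinates `Tr γ(a)`, `Tr γ(b)`, `Tr γ(a b)`; so every `[γ]` is a smooth
point.  Let `γ` be the representation onto the quaternion group, `γ(a) = i`, `γ(b) = j`, with the
coordinates `(0, 0, 0)`.  Its character is fixed by every diffeomorphism `φ` of `S`.  The loop `α`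
around the puncture has `Tr γ(α) = -2`, so that `θ = 2 π i` is a possible choice, with the puncture
weights `p = e^{2 π i / n} + e^{-2 π i / n}`.

The skein algebra of `S` has the generators `X_0`, `X_1`, `X_2` (the simple closed curves with the
classes `a`, `b`, `a b`) and the relations
`s X_i X_{i+1} - s⁻¹ X_{i+1} X_i = (s² - s⁻²) X_{i+2}`, `s = q^{1/2}`, and the loop around the
puncture is `s X_0 X_1 X_2 - s² X_0² - s⁻² X_1² - s² X_2² + s² + s⁻²` (Bullock and Przytycki).
It has the one-dimensional representation `X_i ↦ 0`, in which all non-peripheral simple closed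
curves act by zero.  For odd `n` it has the classical shadow `[γ]` and the puncture weight `p`, and
it is isomorphic to its composition with `φ_♯`, with `Λ = 1`.  So the limit of
`1 / n log |Tr Λ|` is `0` for every pseudo-Anosov diffeomorphism `φ` of `S`, and not
`vol(M_φ) / 4 π > 0`.

(The reason is that the unicity theorem fails at this smooth point of the character variety: the
centre of the skein algebra is singular there.)
-/

set_option autoImplicit false

open Filter Topology Complex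

namespace Pool.Agent.Results.MP_372ad9_gt.DegenerateShadow

/-! ### The skein algebra of the once-punctured torus -/

/-- The relations `s X_i X_{i+1} - s⁻¹ X_{i+1} X_i = (s² - s⁻²) X_{i+2}` (indices modulo 3) in the
free algebra on the three curves `X_0`, `X_1`, `X_2`, which meet in one point pairwise. -/
inductive Rel (s : ℂ) : FreeAlgebra ℂ (Fin 3) → FreeAlgebra ℂ (Fin 3) → Prop
  | cyc (i : Fin 3) : Rel s
      (s • (FreeAlgebra.ι ℂ i * FreeAlgebra.ι ℂ (i + 1)) -
        s⁻¹ • (FreeAlgebra.ι ℂ (i + 1) * FreeAlgebra.ι ℂ i))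
      ((s ^ 2 - s⁻¹ ^ 2) • FreeAlgebra.ι ℂ (i + 2))

/-- The Kauffman bracket skein algebra of the once-punctured torus at `q^{1/2} = s`, in the
presentation of Bullock and Przytycki. -/
abbrev Skein (s : ℂ) : Type := RingQuot (Rel s)

/-- The generators. -/
noncomputable def X (s : ℂ) (i : Fin 3) : Skein s :=
  RingQuot.mkAlgHom ℂ (Rel s) (FreeAlgebra.ι ℂ i)

lemma rel (s : ℂ) (i : Fin 3) :
    s • (X s i * X s (i + 1)) - s⁻¹ • (X s (i + 1) * X s i) = (s ^ 2 - s⁻¹ ^ 2) • X s (i + 2) := by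
  have h := RingQuot.mkAlgHom_rel ℂ (Rel.cyc (s := s) i)
  simp only [map_sub, map_smul, map_mul] at h
  exact h

/-- The homomorphism given by the images of the generators. -/
noncomputable def lift {s : ℂ} {B : Type} [Ring B] [Algebra ℂ B] (x : Fin 3 → B)
    (h : ∀ i, s • (x i * x (i + 1)) - s⁻¹ • (x (i + 1) * x i) =
      (s ^ 2 - s⁻¹ ^ 2) • x (i + 2)) : Skein s →ₐ[ℂ] B :=
  RingQuot.liftAlgHom ℂ ⟨FreeAlgebra.lift ℂ x, by
    rintro a b ⟨i⟩
    simpa only [map_sub, map_smul, map_mul, FreeAlgebra.lift_ι_apply] using h i⟩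

lemma lift_X {s : ℂ} {B : Type} [Ring B] [Algebra ℂ B] (x : Fin 3 → B)
    (h : ∀ i, s • (x i * x (i + 1)) - s⁻¹ • (x (i + 1) * x i) =
      (s ^ 2 - s⁻¹ ^ 2) • x (i + 2)) (i : Fin 3) : lift x h (X s i) = x i := by
  rw [lift, X, RingQuot.liftAlgHom_mkAlgHom_apply, FreeAlgebra.lift_ι_apply]

lemma hom_ext {s : ℂ} {B : Type} [Ring B] [Algebra ℂ B] {f g : Skein s →ₐ[ℂ] B}
    (h : ∀ i, f (X s i) = g (X s i)) : f = g := by
  apply RingQuot.ringQuot_ext'
  apply FreeAlgebra.hom_ext
  funext i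
  exact h i

/-- The loop around the puncture. -/
noncomputable def P (s : ℂ) : Skein s :=
  s • (X s 0 * X s 1 * X s 2) - s ^ 2 • X s 0 ^ 2 - s⁻¹ ^ 2 • X s 1 ^ 2 - s ^ 2 • X s 2 ^ 2 +
    (s ^ 2 + s⁻¹ ^ 2) • 1

/-! ### The action of the mapping class group -/

lemma r0 (s : ℂ) : s • (X s 0 * X s 1) - s⁻¹ • (X s 1 * X s 0) = (s ^ 2 - s⁻¹ ^ 2) • X s 2 :=
  rel s 0
lemma r1 (s : ℂ) : s • (X s 1 * X s 2) - s⁻¹ • (X s 2 * X s 1) = (s ^ 2 - s⁻¹ ^ 2) • X s 0 :=
  rel s 1
lemma r2 (s : ℂ) : s • (X s 2 * X s 0) - s⁻¹ • (X s 0 * X s 2) = (s ^ 2 - s⁻¹ ^ 2) • X s 1 :=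
  rel s 2

/-- the homomorphism of the twist -/
noncomputable def twistHom (s : ℂ) (hs : s ≠ 0) : Skein s →ₐ[ℂ] Skein s :=
  lift ![X s 0, X s 2, s⁻¹ • (X s 0 * X s 2) - s⁻¹ ^ 2 • X s 1] (by
    have h20 : X s 2 * X s 0 =
        (s⁻¹ * (s ^ 2 - s⁻¹ ^ 2)) • X s 1 + s⁻¹ ^ 2 • (X s 0 * X s 2) := by
      have h := congrArg (fun t => s⁻¹ • t) (r2 s)
      simp only [smul_sub, smul_smul, inv_mul_cancel₀ hs, one_smul] at h
      rw [sub_eq_iff_eq_add] at h
      rw [h]
      module
    intro i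
    fin_cases i
    · change s • (X s 0 * X s 2) - s⁻¹ • (X s 2 * X s 0) =
        (s ^ 2 - s⁻¹ ^ 2) • (s⁻¹ • (X s 0 * X s 2) - s⁻¹ ^ 2 • X s 1)
      rw [h20]
      match_scalars <;> field_simp <;> ring
    · change s • (X s 2 * (s⁻¹ • (X s 0 * X s 2) - s⁻¹ ^ 2 • X s 1)) -
        s⁻¹ • ((s⁻¹ • (X s 0 * X s 2) - s⁻¹ ^ 2 • X s 1) * X s 2) =
        (s ^ 2 - s⁻¹ ^ 2) • X s 0
      rw [← r1 s, mul_sub, sub_mul, mul_smul_comm, mul_smul_comm, smul_mul_assoc, smul_mul_assoc,
        ← mul_assoc, h20, add_mul, smul_mul_assoc, smul_mul_assoc]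
      match_scalars <;> field_simp <;> ring
    · change s • ((s⁻¹ • (X s 0 * X s 2) - s⁻¹ ^ 2 • X s 1) * X s 0) -
        s⁻¹ • (X s 0 * (s⁻¹ • (X s 0 * X s 2) - s⁻¹ ^ 2 • X s 1)) =
        (s ^ 2 - s⁻¹ ^ 2) • X s 2
      rw [← r0 s, mul_sub, sub_mul, mul_smul_comm, mul_smul_comm, smul_mul_assoc, smul_mul_assoc,
        mul_assoc, h20, mul_add, mul_smul_comm, mul_smul_comm]
      match_scalars <;> field_simp <;> ring)

/-- the homomorphism of the inverse of the twist -/
noncomputable def twistInv (s : ℂ) (hs : s ≠ 0) : Skein s →ₐ[ℂ] Skein s :=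
  lift ![X s 0, s • (X s 0 * X s 1) - s ^ 2 • X s 2, X s 1] (by
    have h10 : X s 1 * X s 0 =
        s ^ 2 • (X s 0 * X s 1) - (s * (s ^ 2 - s⁻¹ ^ 2)) • X s 2 := by
      have h := congrArg (fun t => s • t) (r0 s)
      simp only [smul_sub, smul_smul, mul_inv_cancel₀ hs, one_smul] at h
      rw [sub_eq_iff_eq_add, ← sub_eq_iff_eq_add'] at h
      rw [← h]
      module
    intro i
    fin_cases i
    · change s • (X s 0 * (s • (X s 0 * X s 1) - s ^ 2 • X s 2)) -
        s⁻¹ • ((s • (X s 0 * X s 1) - s ^ 2 • X s 2) * X s 0) =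
        (s ^ 2 - s⁻¹ ^ 2) • X s 1
      rw [← r2 s, mul_sub, sub_mul, mul_smul_comm, mul_smul_comm, smul_mul_assoc, smul_mul_assoc,
        mul_assoc (X s 0) (X s 1) (X s 0), h10, mul_sub, mul_smul_comm, mul_smul_comm]
      match_scalars <;> field_simp <;> ring
    · change s • ((s • (X s 0 * X s 1) - s ^ 2 • X s 2) * X s 1) -
        s⁻¹ • (X s 1 * (s • (X s 0 * X s 1) - s ^ 2 • X s 2)) =
        (s ^ 2 - s⁻¹ ^ 2) • X s 0
      rw [← r1 s, mul_sub, sub_mul, mul_smul_comm, mul_smul_comm, smul_mul_assoc, smul_mul_assoc,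
        ← mul_assoc (X s 1) (X s 0) (X s 1), h10, sub_mul, smul_mul_assoc, smul_mul_assoc]
      match_scalars <;> field_simp <;> ring
    · change s • (X s 1 * X s 0) - s⁻¹ • (X s 0 * X s 1) =
        (s ^ 2 - s⁻¹ ^ 2) • (s • (X s 0 * X s 1) - s ^ 2 • X s 2)
      rw [h10]
      match_scalars <;> field_simp <;> ring)

/-- The action of the Dehn twist along the curve `X_0`: it fixes `X_0` and maps `X_1` to `X_2` and
`X_2` to `s⁻¹ X_0 X_2 - s⁻² X_1`. -/
noncomputable def twist (s : ℂ) (hs : s ≠ 0) : Skein s ≃ₐ[ℂ] Skein s :=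
  AlgEquiv.ofAlgHom (twistHom s hs) (twistInv s hs)
    (hom_ext fun i => by
      rw [AlgHom.comp_apply, twistInv, lift_X, AlgHom.id_apply]
      fin_cases i
      · exact lift_X _ _ 0
      · change twistHom s hs (s • (X s 0 * X s 1) - s ^ 2 • X s 2) = X s 1
        rw [map_sub, map_smul, map_smul, map_mul, twistHom, lift_X, lift_X, lift_X]
        change s • (X s 0 * X s 2) - s ^ 2 • (s⁻¹ • (X s 0 * X s 2) - s⁻¹ ^ 2 • X s 1) = X s 1
        match_scalars <;> field_simp <;> ring
      · exact lift_X _ _ 1)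
    (hom_ext fun i => by
      rw [AlgHom.comp_apply, twistHom, lift_X, AlgHom.id_apply]
      fin_cases i
      · exact lift_X _ _ 0
      · exact lift_X _ _ 2
      · change twistInv s hs (s⁻¹ • (X s 0 * X s 2) - s⁻¹ ^ 2 • X s 1) = X s 2
        rw [map_sub, map_smul, map_smul, map_mul, twistInv, lift_X, lift_X, lift_X]
        change s⁻¹ • (X s 0 * X s 1) - s⁻¹ ^ 2 • (s • (X s 0 * X s 1) - s ^ 2 • X s 2) = X s 2
        match_scalars <;> field_simp <;> ring)

/-- The action of the rotation of order three: `X_0 ↦ X_1 ↦ X_2 ↦ X_0`. -/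
noncomputable def rot (s : ℂ) : Skein s ≃ₐ[ℂ] Skein s :=
  AlgEquiv.ofAlgHom
    (lift ![X s 1, X s 2, X s 0] (by
      intro i
      fin_cases i
      · exact r1 s
      · exact r2 s
      · exact r0 s))
    (lift ![X s 2, X s 0, X s 1] (by
      intro i
      fin_cases i
      · exact r2 s
      · exact r0 s
      · exact r1 s))
    (hom_ext fun i => by
      rw [AlgHom.comp_apply, lift_X, AlgHom.id_apply]
      fin_cases i
      · exact lift_X _ _ 2
      · exact lift_X _ _ 0
      · exact lift_X _ _ 1)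
    (hom_ext fun i => by
      rw [AlgHom.comp_apply, lift_X, AlgHom.id_apply]
      fin_cases i
      · exact lift_X _ _ 1
      · exact lift_X _ _ 2
      · exact lift_X _ _ 0)

/-- The mapping classes of the once-punctured torus, as words in the Dehn twist (`true`) and the
rotation (`false`), which generate the mapping class group `SL₂(ℤ)`. -/
abbrev MappingClass : Type := FreeGroup Bool

/-- The action of a mapping class on the skein algebra. -/
noncomputable def act (s : ℂ) (hs : s ≠ 0) : MappingClass →* (Skein s ≃ₐ[ℂ] Skein s) :=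
  FreeGroup.lift fun b => if b then twist s hs else rot s

/-- The fundamental group of the once-punctured torus, free on two generators `a`, `b`. -/
abbrev Pi : Type := FreeGroup (Fin 2)

/-- the generator `a`, represented by the curve `X_0` -/
def ga : Pi := FreeGroup.of 0

/-- the generator `b`, represented by the curve `X_1`; `a b` is represented by `X_2` -/
def gb : Pi := FreeGroup.of 1

/-- The loop around the puncture. -/
def alpha : Pi := ga * gb * ga⁻¹ * gb⁻¹

lemma pi_ext {G : Type} [Group G] {f g : Pi →* G} (h0 : f ga = g ga) (h1 : f gb = g gb) :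
    f = g := by
  apply FreeGroup.ext_hom
  intro i
  fin_cases i
  · exact h0
  · exact h1

/-- the homomorphism with `a ↦ x`, `b ↦ y` -/
def hom {G : Type} [Group G] (x y : G) : Pi →* G := FreeGroup.lift ![x, y]

lemma hom_ga {G : Type} [Group G] (x y : G) : hom x y ga = x := by
  rw [hom, ga, FreeGroup.lift_apply_of]; rfl

lemma hom_gb {G : Type} [Group G] (x y : G) : hom x y gb = y := by
  rw [hom, gb, FreeGroup.lift_apply_of]; rfl

/-- The Dehn twist: `a ↦ a`, `b ↦ a b`. -/
def twistPi : MulAut Pi :=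
  MonoidHom.toMulEquiv (hom ga (ga * gb)) (hom ga (ga⁻¹ * gb))
    (pi_ext (by simp [hom_ga]) (by simp [hom_ga, hom_gb]))
    (pi_ext (by simp [hom_ga]) (by simp [hom_ga, hom_gb]))

/-- The rotation: `a ↦ b`, `b ↦ (a b)⁻¹`. -/
def rotPi : MulAut Pi :=
  MonoidHom.toMulEquiv (hom gb (gb⁻¹ * ga⁻¹)) (hom (gb⁻¹ * ga⁻¹) ga)
    (pi_ext (by simp [hom_ga, hom_gb]) (by simp [hom_ga, hom_gb]))
    (pi_ext (by simp [hom_ga, hom_gb]) (by simp [hom_ga, hom_gb]))

/-- The action of a mapping class on the fundamental group (up to inner automorphisms). -/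
def actPi : MappingClass →* MulAut Pi :=
  FreeGroup.lift fun b => if b then twistPi else rotPi

/-! ### Representations and intertwiners -/

/-- `T_0 = 2`, `T_1 = t`, `T_{n+2} = t T_{n+1} - T_n`, so that `T_n(t + t⁻¹) = t^n + t^{-n}`. -/
noncomputable def cheb : ℕ → Polynomial ℂ
  | 0 => 2
  | 1 => Polynomial.X
  | n + 2 => Polynomial.X * cheb (n + 1) - cheb n

/-- `q_n^{1/2} = e^{π i / n}`. -/
noncomputable def root (n : ℕ) : ℂ := exp (Real.pi * I / n)

lemma root_ne (n : ℕ) : root n ≠ 0 := exp_ne_zero _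

/-- The group `SL(2, ℂ)`. -/
abbrev SL2 : Type := Matrix.SpecialLinearGroup (Fin 2) ℂ

/-- The trace. -/
noncomputable def tr (g : SL2) : ℂ := Matrix.trace (g : Matrix (Fin 2) (Fin 2) ℂ)

/-- The character of `γ` is fixed by the mapping class `f`: `[γ ∘ f_*] = [γ]`. -/
def Fixed (f : MappingClass) (γ : Pi →* SL2) : Prop := ∀ g : Pi, tr (γ (actPi f g)) = tr (γ g)

/-- A representation of dimension `m` of the skein algebra at `q_n^{1/2}`. -/
abbrev Rep (n m : ℕ) : Type := Skein (root n) →ₐ[ℂ] Matrix (Fin m) (Fin m) ℂ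

/-- `ρ` is irreducible. -/
def Irreducible {n m : ℕ} (ρ : Rep n m) : Prop :=
  0 < m ∧ ∀ W : Submodule ℂ (Fin m → ℂ), (∀ x, ∀ v ∈ W, (ρ x).mulVec v ∈ W) → W = ⊥ ∨ W = ⊤

/-- `ρ` has the classical shadow `[γ]`: `T_n([K])` acts by `-Tr γ(K)` for every simple closed curve
`K`, the image of the curve `X_0` (with the class `a`) under a mapping class. -/
def HasShadow {n m : ℕ} (ρ : Rep n m) (γ : Pi →* SL2) : Prop :=
  ∀ f : MappingClass, ρ (Polynomial.aeval (act (root n) (root_ne n) f (X (root n) 0)) (cheb n)) =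
    (-tr (γ (actPi f ga))) • (1 : Matrix (Fin m) (Fin m) ℂ)

/-- `ρ` has the puncture weight `e^{θ/n} + e^{-θ/n}`. -/
def HasWeight {n m : ℕ} (ρ : Rep n m) (θ : ℂ) : Prop :=
  ρ (P (root n)) = (exp (θ / n) + exp (-θ / n)) • (1 : Matrix (Fin m) (Fin m) ℂ)

/-- `t = |Tr Λ|` for an intertwiner `Λ` of `ρ` and `ρ ∘ f_♯` with `|det Λ| = 1`. -/
def IsTrace {n m : ℕ} (f : MappingClass) (ρ : Rep n m) (t : ℝ) : Prop :=
  ∃ Λ : Matrix (Fin m) (Fin m) ℂ, ‖Λ.det‖ = 1 ∧
    (∀ x, ρ (act (root n) (root_ne n) f x) * Λ = Λ * ρ x) ∧ t = ‖Λ.trace‖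

/-- The volume conjecture for the mapping class `f`, `vol` being the volume of the mapping torus:
for all data `γ`, `θ` and all irreducible representations with this shadow and puncture weight, the
limit is `vol / 4 π`. -/
def VolumeConjecture (f : MappingClass) (vol : ℝ) : Prop :=
  ∀ (γ : Pi →* SL2) (θ : ℂ), Fixed f γ → tr (γ alpha) = -exp θ - exp (-θ) →
    ∀ (m : ℕ → ℕ) (ρ : ∀ n, Rep n (m n)) (t : ℕ → ℝ),
      (∀ n, Odd n → Irreducible (ρ n) ∧ HasShadow (ρ n) γ ∧ HasWeight (ρ n) θ ∧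
        IsTrace f (ρ n) (t n)) →
      Tendsto (fun n : ℕ => 1 / (n : ℝ) * Real.log (t n)) (atTop ⊓ 𝓟 {n | Odd n})
        (𝓝 (vol / (4 * Real.pi)))

/-! ### The quaternion character -/

/-- the quaternion `i` -/
noncomputable def qi : SL2 := ⟨!![I, 0; 0, -I], by simp [Matrix.det_fin_two]⟩

/-- the quaternion `j` -/
noncomputable def qj : SL2 := ⟨!![0, 1; -1, 0], by simp [Matrix.det_fin_two]⟩

/-- The representation `a ↦ i`, `b ↦ j`. -/
noncomputable def quat : Pi →* SL2 := hom qi qj

lemma conj_twist : ∃ c : SL2, ∀ g : Pi, quat (twistPi g) * c = c * quat g := by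
  have hz : exp (Real.pi * I / 4) ^ 2 = I := by
    rw [← exp_nat_mul]
    rw [show ((2 : ℕ) : ℂ) * (Real.pi * I / 4) = (Real.pi / 2 : ℂ) * I by push_cast; ring]
    rw [exp_mul_I]
    rw [show (Real.pi / 2 : ℂ) = ((Real.pi / 2 : ℝ) : ℂ) by push_cast; ring, ← ofReal_cos,
      ← ofReal_sin]
    simp
  have hz0 : exp (Real.pi * I / 4) ≠ 0 := exp_ne_zero _
  set z := exp (Real.pi * I / 4) with hzd
  let c : SL2 := ⟨!![z, 0; 0, z⁻¹], by simp [Matrix.det_fin_two, hz0]⟩
  refine ⟨c, ?_⟩
  have h : (quat.comp twistPi.toMonoidHom) =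
      ((MulAut.conj c).toMonoidHom.comp quat) := by
    apply pi_ext
    · change quat (hom ga (ga * gb) ga) = c * quat ga * c⁻¹
      rw [hom_ga, quat, hom_ga, eq_mul_inv_iff_mul_eq]
      apply Subtype.ext
      change !![I, 0; 0, -I] * !![z, 0; 0, z⁻¹] = !![z, 0; 0, z⁻¹] * !![I, 0; 0, -I]
      rw [Matrix.mul_fin_two, Matrix.mul_fin_two]
      congr 1
      simp [mul_comm]
    · change quat (hom ga (ga * gb) gb) = c * quat gb * c⁻¹
      rw [hom_gb, map_mul, quat, hom_gb, hom_ga, eq_mul_inv_iff_mul_eq]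
      apply Subtype.ext
      change !![I, 0; 0, -I] * !![0, 1; -1, 0] * !![z, 0; 0, z⁻¹] =
        !![z, 0; 0, z⁻¹] * !![0, 1; -1, 0]
      have h4 : z ^ 4 = -1 := by
        rw [show z ^ 4 = (z ^ 2) ^ 2 by ring, hz, I_sq]
      rw [Matrix.mul_fin_two, Matrix.mul_fin_two, Matrix.mul_fin_two, ← hz]
      ext i j
      fin_cases i <;> fin_cases j
      · simp
      · simp
        field_simp
      · simp
        field_simp
        linear_combination h4
      · simp
  intro g
  have := DFunLike.congr_fun h g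
  change quat (twistPi g) = c * quat g * c⁻¹ at this
  rw [this, inv_mul_cancel_right]

lemma conj_rot : ∃ c : SL2, ∀ g : Pi, quat (rotPi g) * c = c * quat g := by
  let c : SL2 := ⟨!![(1 - I) / 2, (-1 + I) / 2; (1 + I) / 2, (1 + I) / 2], by
    rw [Matrix.det_fin_two_of]
    linear_combination (-1 / 2 : ℂ) * I_sq⟩
  refine ⟨c, ?_⟩
  have h : (quat.comp rotPi.toMonoidHom) =
      ((MulAut.conj c).toMonoidHom.comp quat) := by
    apply pi_ext
    · change quat (hom gb (gb⁻¹ * ga⁻¹) ga) = c * quat ga * c⁻¹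
      rw [hom_ga, quat, hom_ga, hom_gb, eq_mul_inv_iff_mul_eq]
      apply Subtype.ext
      change !![0, 1; -1, 0] * !![(1 - I) / 2, (-1 + I) / 2; (1 + I) / 2, (1 + I) / 2] =
        !![(1 - I) / 2, (-1 + I) / 2; (1 + I) / 2, (1 + I) / 2] * !![I, 0; 0, -I]
      rw [Matrix.mul_fin_two, Matrix.mul_fin_two]
      ext i j
      fin_cases i <;> fin_cases j
      · change 0 * ((1 - I) / 2) + 1 * ((1 + I) / 2) = (1 - I) / 2 * I + (-1 + I) / 2 * 0
        linear_combination (1 / 2 : ℂ) * I_sq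
      · change 0 * ((-1 + I) / 2) + 1 * ((1 + I) / 2) = (1 - I) / 2 * 0 + (-1 + I) / 2 * -I
        linear_combination (1 / 2 : ℂ) * I_sq
      · change -1 * ((1 - I) / 2) + 0 * ((1 + I) / 2) = (1 + I) / 2 * I + (1 + I) / 2 * 0
        linear_combination (-1 / 2 : ℂ) * I_sq
      · change -1 * ((-1 + I) / 2) + 0 * ((1 + I) / 2) = (1 + I) / 2 * 0 + (1 + I) / 2 * -I
        linear_combination (1 / 2 : ℂ) * I_sq
    · change quat (hom gb (gb⁻¹ * ga⁻¹) gb) = c * quat gb * c⁻¹
      rw [hom_gb, map_mul, map_inv, map_inv, quat, hom_gb, hom_ga, eq_mul_inv_iff_mul_eq,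
        mul_assoc, inv_mul_eq_iff_eq_mul, inv_mul_eq_iff_eq_mul]
      apply Subtype.ext
      change !![(1 - I) / 2, (-1 + I) / 2; (1 + I) / 2, (1 + I) / 2] =
        !![I, 0; 0, -I] * (!![0, 1; -1, 0] *
          (!![(1 - I) / 2, (-1 + I) / 2; (1 + I) / 2, (1 + I) / 2] * !![0, 1; -1, 0]))
      rw [Matrix.mul_fin_two, Matrix.mul_fin_two, Matrix.mul_fin_two]
      ext i j
      fin_cases i <;> fin_cases j <;> simp
      · linear_combination (1 / 2 : ℂ) * I_sq
      · linear_combination (-1 / 2 : ℂ) * I_sq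
      · linear_combination (1 / 2 : ℂ) * I_sq
      · linear_combination (1 / 2 : ℂ) * I_sq
  intro g
  have := DFunLike.congr_fun h g
  change quat (rotPi g) = c * quat g * c⁻¹ at this
  rw [this, inv_mul_cancel_right]

lemma conj_all (f : MappingClass) : ∃ c : SL2, ∀ g : Pi, quat (actPi f g) * c = c * quat g := by
  induction f using FreeGroup.induction_on with
  | C1 => exact ⟨1, fun g => by simp⟩
  | of b =>
    cases b
    · obtain ⟨c, hc⟩ := conj_rot
      refine ⟨c, fun g => ?_⟩
      have : actPi (FreeGroup.of false) = rotPi := by simp [actPi]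
      rw [this]
      exact hc g
    · obtain ⟨c, hc⟩ := conj_twist
      refine ⟨c, fun g => ?_⟩
      have : actPi (FreeGroup.of true) = twistPi := by simp [actPi]
      rw [this]
      exact hc g
  | inv_of b ih =>
    obtain ⟨c, hc⟩ := ih
    refine ⟨c⁻¹, fun g => ?_⟩
    have h := hc (actPi (FreeGroup.of b)⁻¹ g)
    rw [← MulAut.mul_apply, ← map_mul, mul_inv_cancel, map_one, MulAut.one_apply] at h
    rw [eq_inv_mul_iff_mul_eq, ← mul_assoc, ← h, mul_assoc, mul_inv_cancel, mul_one]
  | mul x y ihx ihy =>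
    obtain ⟨c, hc⟩ := ihx
    obtain ⟨d, hd⟩ := ihy
    refine ⟨c * d, fun g => ?_⟩
    rw [map_mul, MulAut.mul_apply, ← mul_assoc, hc, mul_assoc, hd, mul_assoc]

lemma quat_fixed (f : MappingClass) : Fixed f quat := by
  obtain ⟨c, hc⟩ := conj_all f
  intro g
  have h : quat (actPi f g) = c * quat g * c⁻¹ := by
    rw [eq_mul_inv_iff_mul_eq]
    exact hc g
  rw [h, tr, tr, Matrix.SpecialLinearGroup.coe_mul, Matrix.SpecialLinearGroup.coe_mul,
    Matrix.trace_mul_comm, ← mul_assoc]
  have : ((c⁻¹ : SL2) : Matrix (Fin 2) (Fin 2) ℂ) * (c : Matrix (Fin 2) (Fin 2) ℂ) = 1 := by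
    rw [← Matrix.SpecialLinearGroup.coe_mul, inv_mul_cancel, Matrix.SpecialLinearGroup.coe_one]
  rw [this, one_mul]

lemma tr_ga : tr (quat ga) = 0 := by
  rw [quat, hom_ga, tr, qi]
  simp [Matrix.trace_fin_two]

lemma tr_alpha : tr (quat alpha) = -exp (2 * Real.pi * I) - exp (-(2 * Real.pi * I)) := by
  have h : quat alpha = (qi * qj) * (qj * qi)⁻¹ := by
    rw [alpha, map_mul, map_mul, map_mul, map_inv, map_inv, quat, hom_ga, hom_gb]
    group
  have h1 : (quat alpha : Matrix (Fin 2) (Fin 2) ℂ) = -1 := by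
    have h2 : (qi * qj : SL2) = -(qj * qi) := by
      apply Subtype.ext
      change !![I, 0; 0, -I] * !![0, 1; -1, 0] = -(!![0, 1; -1, 0] * !![I, 0; 0, -I])
      rw [Matrix.mul_fin_two, Matrix.mul_fin_two]
      ext i j
      fin_cases i <;> fin_cases j <;> simp
    rw [h, h2, neg_mul, mul_inv_cancel]
    rfl
  rw [tr, h1, exp_two_pi_mul_I, exp_neg, exp_two_pi_mul_I]
  simp [Matrix.trace_fin_two]
  norm_num

/-! ### The one-dimensional representation -/

/-- The representation `X_i ↦ 0`. -/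
noncomputable def zero (n : ℕ) : Rep n 1 := lift (fun _ => 0) (by intro i; simp)

lemma zero_X (n : ℕ) (i : Fin 3) : zero n (X (root n) i) = 0 := lift_X _ _ i

lemma zero_twist (n : ℕ) : (zero n).comp (twist (root n) (root_ne n)).toAlgHom = zero n := by
  apply hom_ext
  intro i
  rw [zero_X]
  change zero n (twistHom (root n) (root_ne n) (X (root n) i)) = 0
  rw [twistHom, lift_X]
  fin_cases i
  · exact zero_X n 0
  · exact zero_X n 2
  · change zero n ((root n)⁻¹ • (X (root n) 0 * X (root n) 2) -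
      (root n)⁻¹ ^ 2 • X (root n) 1) = 0
    rw [map_sub, map_smul, map_smul, map_mul, zero_X, zero_X, zero_X]
    simp

lemma zero_rot (n : ℕ) : (zero n).comp (rot (root n)).toAlgHom = zero n := by
  apply hom_ext
  intro i
  rw [zero_X]
  fin_cases i
  · change zero n (lift _ _ (X (root n) 0)) = 0
    rw [lift_X]
    exact zero_X n 1
  · change zero n (lift _ _ (X (root n) 1)) = 0
    rw [lift_X]
    exact zero_X n 2
  · change zero n (lift _ _ (X (root n) 2)) = 0
    rw [lift_X]
    exact zero_X n 0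

lemma zero_act (n : ℕ) (f : MappingClass) :
    ∀ x, zero n (act (root n) (root_ne n) f x) = zero n x := by
  induction f using FreeGroup.induction_on with
  | C1 => intro x; rw [map_one]; rfl
  | of b =>
    intro x
    cases b
    · have : act (root n) (root_ne n) (FreeGroup.of false) = rot (root n) := by simp [act]
      rw [this]
      exact DFunLike.congr_fun (zero_rot n) x
    · have : act (root n) (root_ne n) (FreeGroup.of true) = twist (root n) (root_ne n) := by
        simp [act]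
      rw [this]
      exact DFunLike.congr_fun (zero_twist n) x
  | inv_of b ih =>
    intro x
    have h := ih (act (root n) (root_ne n) (FreeGroup.of b)⁻¹ x)
    rw [← AlgEquiv.mul_apply, ← map_mul, mul_inv_cancel, map_one, AlgEquiv.one_apply] at h
    exact h.symm
  | mul f g ihf ihg =>
    intro x
    rw [map_mul, AlgEquiv.mul_apply, ihf, ihg]

lemma cheb_zero (k : ℕ) : (cheb (2 * k + 1)).eval 0 = 0 := by
  induction k with
  | zero => simp [cheb]
  | succ k ih =>
    rw [show 2 * (k + 1) + 1 = (2 * k + 1) + 2 by ring, cheb]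
    simp [ih]

lemma zero_shadow (n : ℕ) (hn : Odd n) : HasShadow (zero n) quat := by
  intro f
  obtain ⟨k, rfl⟩ := hn
  have h1 := quat_fixed f ga
  rw [tr_ga] at h1
  rw [h1, neg_zero, zero_smul, ← Polynomial.aeval_algHom_apply, zero_act, zero_X,
    Polynomial.aeval_def, Polynomial.eval₂_at_zero]
  have := cheb_zero k
  rw [← Polynomial.coeff_zero_eq_eval_zero] at this
  rw [this, map_zero]

lemma zero_weight (n : ℕ) : HasWeight (zero n) (2 * Real.pi * I) := by
  rw [HasWeight, P]
  simp only [map_sub, map_add, map_smul, map_mul, map_pow, zero_X, map_one]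
  have h1 : root n ^ 2 = exp (2 * Real.pi * I / n) := by
    rw [root, ← exp_nat_mul]
    congr 1
    push_cast
    ring
  have h2 : (root n)⁻¹ ^ 2 = exp (-(2 * Real.pi * I) / n) := by
    rw [inv_pow, h1, ← exp_neg]
    congr 1
    ring
  rw [h1, h2]
  simp

lemma zero_irr (n : ℕ) : Irreducible (zero n) := by
  refine ⟨one_pos, fun W _ => ?_⟩
  by_cases h : W = ⊥
  · exact Or.inl h
  · right
    obtain ⟨v, hv, hv0⟩ := Submodule.exists_mem_ne_zero_of_ne_bot h
    have h0 : v 0 ≠ 0 := by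
      intro h1
      apply hv0
      funext i
      fin_cases i
      exact h1
    rw [eq_top_iff]
    intro w _
    have : w = (w 0 / v 0) • v := by
      funext i
      fin_cases i
      simp [h0]
    rw [this]
    exact W.smul_mem _ hv

lemma zero_trace (n : ℕ) (f : MappingClass) : IsTrace f (zero n) 1 := by
  refine ⟨1, by simp, fun x => ?_, by simp⟩
  rw [zero_act, mul_one, one_mul]

/-- **Counterexamples to the volume conjecture for surface diffeomorphisms.**  Let `f` be any
mapping class of the once-punctured torus.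
(1) The quaternion character is fixed by `f`, and `θ = 2 π i` satisfies
`Tr γ(α) = -e^θ - e^{-θ}`; for odd `n` the representation `X_i ↦ 0` is irreducible and has this
shadow and this puncture weight, and `|Tr Λ| = 1` for all normalised intertwiners `Λ`.
(2) So the volume conjecture is false for `f`, whatever the (positive) volume of the mapping torus
is. -/
theorem result (f : MappingClass) :
    (Fixed f quat ∧ tr (quat alpha) = -exp (2 * Real.pi * I) - exp (-(2 * Real.pi * I)) ∧
      ∀ n, Odd n → Irreducible (zero n) ∧ HasShadow (zero n) quat ∧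
        HasWeight (zero n) (2 * Real.pi * I) ∧ ∀ t, IsTrace f (zero n) t ↔ t = 1) ∧
    ∀ vol : ℝ, 0 < vol → ¬ VolumeConjecture f vol := by
  refine ⟨⟨quat_fixed f, tr_alpha, fun n hn => ⟨zero_irr n, zero_shadow n hn, zero_weight n,
    fun t => ⟨?_, ?_⟩⟩⟩, ?_⟩
  · rintro ⟨L, h1, -, h2⟩
    rw [h2, ← h1]
    simp [Matrix.trace]
  · rintro rfl
    exact zero_trace n f
  · intro vol hvol h
    have h1 := h quat (2 * Real.pi * I) (quat_fixed f) tr_alpha (fun _ => 1) zero (fun _ => 1)
      fun n hn => ⟨zero_irr n, zero_shadow n hn, zero_weight n, zero_trace n f⟩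
    simp only [Real.log_one, mul_zero] at h1
    have hne : (atTop ⊓ 𝓟 {n : ℕ | Odd n}).NeBot := by
      rw [← Filter.frequently_mem_iff_neBot]
      rw [Filter.frequently_atTop]
      intro a
      exact ⟨2 * a + 1, by omega, ⟨a, rfl⟩⟩
    have h2 := tendsto_nhds_unique h1 tendsto_const_nhds
    have : 0 < vol / (4 * Real.pi) := by positivity
    linarith

end Pool.Agent.Results.MP_372ad9_gt.DegenerateShadow
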